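import Pool.Agent.H118R4.DCS.Main

/-!
# Disjoint Connected Subgraphs in time `2 ^ (n - k) * poly(n)`

One Turing machine decides, for every graph `G` with `n` vertices and all pairwise disjoint
nonempty vertex sets `Z_1, ..., Z_k`, whether `G` has pairwise disjoint connected subgraphs
containing them, in at most `2 ^ (n - k) * p(n)` steps, for a polynomial `p`.

* A branching walk from `v` is a tree with a homomorphism to `G` sending its root to `v`. The
  polynomial `Q` in one variable per vertex is the product, over all `i`, of the generating
  polynomial of branching walks of bounded depth from a fixed element `r_i` of `Z_i` which avoid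
  the other terminal sets, times the product of all `1 + X_v` with `v` in no terminal set. The
  disjoint connected subgraphs exist iff the monomial `X_1 ... X_n` has a nonzero coefficient `q`.
* The signed sum of the values of `Q` at the vectors which are `y` on a vertex set containing all
  `r_i` and `0` elsewhere is congruent to `q y ^ n` modulo `y ^ (n + 1)`, and `q < y` for
  `y = 2 ^ (n ^ 2 + 3 n + 1)`. There are `2 ^ (n - k)` such sets, and each value is computed modulo
  `y ^ (n + 1)` in polynomial time.
-/

namespace Pool.Agent.Results.MP_14a7d6_lc.Connected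

open Pool.Agent.NPC Pool.Agent.H118R4.DCS Turing

open Classical in
/-- The bit string of an instance: the adjacency matrix of `G`, as a list of rows, and the list of
the increasing lists of the elements of `Z 0, ..., Z (k - 1)`. -/
noncomputable def code {n k : ℕ} (G : SimpleGraph (Fin n)) (Z : Fin k → Finset (Fin n)) :
    List Bool :=
  bits (((List.finRange n).map fun u => (List.finRange n).map fun v => decide (G.Adj u v),
    List.ofFn fun i => ((Z i).sort (· ≤ ·)).map Fin.val) : List (List Bool) × List (List ℕ))

/-- There are pairwise vertex-disjoint connected subgraphs `D i` of `G` with `Z i ⊆ V(D i)`. -/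
def HasDisjointConnected {n k : ℕ} (G : SimpleGraph (Fin n)) (Z : Fin k → Finset (Fin n)) :
    Prop :=
  ∃ D : Fin k → G.Subgraph, (∀ i, (D i).Connected) ∧
    (∀ i j, i ≠ j → Disjoint (D i).verts (D j).verts) ∧
    ∀ i, (Z i : Set (Fin n)) ⊆ (D i).verts

open Classical in
/-- On input `x`, the machine halts after at most `t` steps, with output the truth value of `a`. -/
def Decides (M : TM2ComputableAux Bool Bool) (x : List Bool) (a : Prop) (t : ℕ) : Prop :=
  Nonempty (TM2OutputsInTime M.tm (x.map M.inputAlphabet.invFun)
    (some ([decide a].map M.outputAlphabet.invFun)) t)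

theorem has_iff {n k : ℕ} (G : SimpleGraph (Fin n)) (Z : Fin k → Finset (Fin n)) :
    HasDisjointConnected G Z ↔ ∃ E : Fin k → Finset (Fin n),
      (∀ i j, i ≠ j → Disjoint (E i) (E j)) ∧ (∀ i, CC G (E i)) ∧ ∀ i, Z i ⊆ E i := by
  classical
  constructor
  · rintro ⟨D, h1, h2, h3⟩
    refine ⟨fun i => (D i).verts.toFinset, fun i j hij => ?_, fun i => ?_, fun i v hv => ?_⟩
    · rw [Set.disjoint_toFinset]
      exact h2 i j hij
    · unfold CC
      rw [Set.coe_toFinset]
      exact (h1 i).induce_verts
    · rw [Set.mem_toFinset]
      exact h3 i hv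
  · rintro ⟨E, h1, h2, h3⟩
    refine ⟨fun i => (⊤ : G.Subgraph).induce (E i), fun i => ?_, fun i j hij => ?_, fun i => ?_⟩
    · exact SimpleGraph.connected_induce_iff.1 (h2 i)
    · simpa using h1 i j hij
    · simpa using h3 i

/-- **Disjoint Connected Subgraphs is decided in time `2 ^ (n - k) * poly(n)`.** -/
theorem result : ∃ (M : TM2ComputableAux Bool Bool) (p : Polynomial ℕ),
    ∀ (n k : ℕ) (G : SimpleGraph (Fin n)) (Z : Fin k → Finset (Fin n)),
      (∀ i, (Z i).Nonempty) → (∀ i j, i ≠ j → Disjoint (Z i) (Z j)) →
      Decides M (code G Z) (HasDisjointConnected G Z) (2 ^ (n - k) * p.eval n) := by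
  classical
  obtain ⟨M, p, h⟩ := exists_algorithm
  refine ⟨M, p, fun n k G Z hZ hd => ?_⟩
  exact h n k G Z hZ hd _ (by rw [decide_eq_true_eq]; exact has_iff G Z)

end Pool.Agent.Results.MP_14a7d6_lc.Connected
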